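import Pool.Agent.Helper12.ET.Spec

/-!
# Part OV: pairs of sums with a common summand
-/

set_option autoImplicit false

namespace Pool.Agent.Helper5.ET.OV

open Pool.Agent.Helper12.ET Finset

lemma sum_ins (F : Finset ℕ) (r : ℕ) (i : Fin (r + 1)) (f : (Fin (r + 1) → ℕ) → ℝ) :
    ∑ u ∈ P F (r + 1), f u = ∑ a ∈ F, ∑ u ∈ P F r, f (i.insertNth (α := fun _ => ℕ) a u) := by
  rw [← Finset.sum_product']
  symm
  refine Finset.sum_bij' (fun x _ => i.insertNth (α := fun _ => ℕ) x.1 x.2)
    (fun u _ => (u i, i.removeNth u)) ?_ ?_ ?_ ?_ ?_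
  · rintro ⟨a, u⟩ h
    rw [Finset.mem_product] at h
    unfold P at h ⊢
    rw [Fintype.mem_piFinset] at h ⊢
    intro j
    refine Fin.succAboveCases i ?_ (fun k => ?_) j
    · simpa using h.1
    · simpa using h.2 k
  · intro u h
    unfold P at h ⊢
    rw [Fintype.mem_piFinset] at h
    rw [Finset.mem_product, Fintype.mem_piFinset]
    exact ⟨h i, fun k => h (i.succAbove k)⟩
  · rintro ⟨a, u⟩ _
    simp
  · intro u _
    simp
  · intro x _
    rfl

lemma sg_ins {r : ℕ} (i : Fin (r + 1)) (a : ℕ) (u : Fin r → ℕ) :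
    sg (i.insertNth (α := fun _ => ℕ) a u) = a + sg u := by
  unfold sg
  rw [Fin.sum_univ_succAbove _ i]
  simp

lemma w_nonneg (N : ℕ) (m : ℤ) : 0 ≤ w N m := le_max_left _ _

lemma w_le (N : ℕ) (m : ℤ) : w N m ≤ N := by
  unfold w
  have := abs_nonneg (m : ℝ)
  have h : (0 : ℝ) ≤ N := Nat.cast_nonneg N
  exact max_le h (by linarith)

lemma w_zero {N : ℕ} {m : ℤ} (h : (N : ℤ) ≤ |m|) : w N m = 0 := by
  unfold w
  have h1 : (N : ℝ) ≤ |(m : ℝ)| := by exact_mod_cast h
  exact max_eq_left (by linarith)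

/-- pairs with `u i = v j` -/
lemma common (F : Finset ℕ) (N r : ℕ) (i j : Fin (r + 1)) :
    ∑ u ∈ P F (r + 1), ∑ v ∈ P F (r + 1), (if u i = v j then w N (sg u - sg v) else 0) =
      F.card * W F N r := by
  rw [sum_ins F r i]
  have h1 : ∀ a ∈ F, (∑ u ∈ P F r, ∑ v ∈ P F (r + 1),
      (if (i.insertNth (α := fun _ => ℕ) a u) i = v j then
        w N (sg (i.insertNth (α := fun _ => ℕ) a u) - sg v) else 0)) = W F N r := by
    intro a ha
    unfold W
    refine Finset.sum_congr rfl fun u _ => ?_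
    rw [sum_ins F r j, Finset.sum_eq_single a]
    · refine Finset.sum_congr rfl fun v _ => ?_
      simp only [Fin.insertNth_apply_same, if_true, sg_ins]
      congr 1
      ring
    · intro b _ hb
      refine Finset.sum_eq_zero fun v _ => ?_
      simp only [Fin.insertNth_apply_same]
      exact if_neg (Ne.symm hb)
    · intro h
      exact absurd ha h
  rw [Finset.sum_congr rfl h1, Finset.sum_const, nsmul_eq_mul]

/-- pairs without common entries -/
lemma disj (F : Finset ℕ) (N g r : ℕ) (h : FewDiff g r (F : Set ℕ)) :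
    ∑ u ∈ P F r, ∑ v ∈ P F r, (if ∀ i j, u i ≠ v j then w N (sg u - sg v) else 0) ≤
      2 * g * (N : ℝ) ^ 2 := by
  classical
  rw [← Finset.sum_product']
  set D : Finset ((Fin r → ℕ) × (Fin r → ℕ)) := (P F r ×ˢ P F r).filter
    (fun p => (∀ i j, p.1 i ≠ p.2 j) ∧ |sg p.1 - sg p.2| < (N : ℤ)) with hD
  have h1 : ∑ p ∈ P F r ×ˢ P F r,
      (if ∀ i j, p.1 i ≠ p.2 j then w N (sg p.1 - sg p.2) else 0) ≤ ∑ p ∈ D, (N : ℝ) := by
    rw [hD, Finset.sum_filter]
    refine Finset.sum_le_sum fun p _ => ?_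
    by_cases hp : ∀ i j, p.1 i ≠ p.2 j
    · by_cases hq : |sg p.1 - sg p.2| < (N : ℤ)
      · rw [if_pos hp, if_pos ⟨hp, hq⟩]
        exact w_le _ _
      · rw [if_pos hp, if_neg (fun hh => hq hh.2), w_zero (not_lt.1 hq)]
    · rw [if_neg hp, if_neg (fun hh => hp hh.1)]
  refine h1.trans ?_
  rw [Finset.sum_const, nsmul_eq_mul]
  have h2 : D.card ≤ g * (Finset.Ioo (-(N : ℤ)) N).card := by
    refine Finset.card_le_mul_card_image_of_maps_to (f := fun p => sg p.1 - sg p.2) ?_ g ?_
    · intro p hp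
      rw [hD, Finset.mem_filter] at hp
      rw [Finset.mem_Ioo]
      exact abs_lt.1 hp.2.2
    · intro d _
      have h3 : ((D.filter (fun p => sg p.1 - sg p.2 = d) :
          Finset ((Fin r → ℕ) × (Fin r → ℕ))) : Set ((Fin r → ℕ) × (Fin r → ℕ))) ⊆
          {p : (Fin r → ℕ) × (Fin r → ℕ) | (∀ i, p.1 i ∈ (F : Set ℕ)) ∧
            (∀ i, p.2 i ∈ (F : Set ℕ)) ∧ (∀ i j, p.1 i ≠ p.2 j) ∧
            (∑ i, (p.1 i : ℤ)) - ∑ i, (p.2 i : ℤ) = d} := by
        intro p hp
        rw [Finset.mem_coe, Finset.mem_filter, hD, Finset.mem_filter, Finset.mem_product] at hp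
        unfold P at hp
        rw [Fintype.mem_piFinset, Fintype.mem_piFinset] at hp
        exact ⟨fun i => hp.1.1.1 i, fun i => hp.1.1.2 i, hp.1.2.1, hp.2⟩
      have h4 := (Set.encard_le_encard h3).trans (h d)
      rw [Set.encard_coe_eq_coe_finsetCard] at h4
      exact_mod_cast h4
  have h5 : (Finset.Ioo (-(N : ℤ)) N).card ≤ 2 * N := by
    rw [Int.card_Ioo]
    omega
  have h6 : (D.card : ℝ) ≤ g * (2 * N) := by
    exact_mod_cast h2.trans (Nat.mul_le_mul_left g h5)
  have hN : (0 : ℝ) ≤ N := Nat.cast_nonneg N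
  calc (D.card : ℝ) * N ≤ (g * (2 * N)) * N := mul_le_mul_of_nonneg_right h6 hN
    _ = 2 * g * (N : ℝ) ^ 2 := by ring

theorem main : S_OV := by
  classical
  intro F N g r h
  have h1 : W F N (r + 1) ≤
      ∑ u ∈ P F (r + 1), ∑ v ∈ P F (r + 1),
        ((if ∀ i j, u i ≠ v j then w N (sg u - sg v) else 0) +
          ∑ i : Fin (r + 1), ∑ j : Fin (r + 1),
            (if u i = v j then w N (sg u - sg v) else 0)) := by
    unfold W
    refine Finset.sum_le_sum fun u _ => Finset.sum_le_sum fun v _ => ?_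
    have hw := w_nonneg N (sg u - sg v)
    have h0 : ∀ i j : Fin (r + 1), 0 ≤ (if u i = v j then w N (sg u - sg v) else 0) := by
      intro i j
      split_ifs
      · exact hw
      · exact le_rfl
    by_cases hp : ∀ i j, u i ≠ v j
    · rw [if_pos hp]
      have : 0 ≤ ∑ i : Fin (r + 1), ∑ j : Fin (r + 1),
          (if u i = v j then w N (sg u - sg v) else 0) :=
        Finset.sum_nonneg fun i _ => Finset.sum_nonneg fun j _ => h0 i j
      linarith
    · rw [if_neg hp, zero_add]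
      push Not at hp
      obtain ⟨i, j, hij⟩ := hp
      calc w N (sg u - sg v) = (if u i = v j then w N (sg u - sg v) else 0) := by rw [if_pos hij]
        _ ≤ ∑ j' : Fin (r + 1), (if u i = v j' then w N (sg u - sg v) else 0) :=
          Finset.single_le_sum (f := fun j' => (if u i = v j' then w N (sg u - sg v) else 0))
            (fun j' _ => h0 i j') (Finset.mem_univ j)
        _ ≤ _ := Finset.single_le_sum (f := fun i' => ∑ j' : Fin (r + 1),
            (if u i' = v j' then w N (sg u - sg v) else 0))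
            (fun i' _ => Finset.sum_nonneg fun j' _ => h0 i' j') (Finset.mem_univ i)
  have h2 : ∑ u ∈ P F (r + 1), ∑ v ∈ P F (r + 1),
        ((if ∀ i j, u i ≠ v j then w N (sg u - sg v) else 0) +
          ∑ i : Fin (r + 1), ∑ j : Fin (r + 1),
            (if u i = v j then w N (sg u - sg v) else 0)) =
      (∑ u ∈ P F (r + 1), ∑ v ∈ P F (r + 1),
        (if ∀ i j, u i ≠ v j then w N (sg u - sg v) else 0)) +
      ∑ i : Fin (r + 1), ∑ j : Fin (r + 1), ∑ u ∈ P F (r + 1), ∑ v ∈ P F (r + 1),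
            (if u i = v j then w N (sg u - sg v) else 0) := by
    simp only [Finset.sum_add_distrib]
    congr 1
    calc ∑ u ∈ P F (r + 1), ∑ v ∈ P F (r + 1), ∑ i : Fin (r + 1), ∑ j : Fin (r + 1),
            (if u i = v j then w N (sg u - sg v) else 0)
        = ∑ u ∈ P F (r + 1), ∑ i : Fin (r + 1), ∑ v ∈ P F (r + 1), ∑ j : Fin (r + 1),
            (if u i = v j then w N (sg u - sg v) else 0) :=
          Finset.sum_congr rfl fun u _ => Finset.sum_comm
      _ = ∑ i : Fin (r + 1), ∑ u ∈ P F (r + 1), ∑ v ∈ P F (r + 1), ∑ j : Fin (r + 1),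
            (if u i = v j then w N (sg u - sg v) else 0) := Finset.sum_comm
      _ = ∑ i : Fin (r + 1), ∑ u ∈ P F (r + 1), ∑ j : Fin (r + 1), ∑ v ∈ P F (r + 1),
            (if u i = v j then w N (sg u - sg v) else 0) :=
          Finset.sum_congr rfl fun i _ => Finset.sum_congr rfl fun u _ => Finset.sum_comm
      _ = _ := Finset.sum_congr rfl fun i _ => Finset.sum_comm
  rw [h2] at h1
  have h3 := disj F N g (r + 1) h
  have h4 : ∑ i : Fin (r + 1), ∑ j : Fin (r + 1), ∑ u ∈ P F (r + 1), ∑ v ∈ P F (r + 1),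
            (if u i = v j then w N (sg u - sg v) else 0) =
      ((r : ℝ) + 1) ^ 2 * F.card * W F N r := by
    simp only [common, Finset.sum_const, Finset.card_univ, Fintype.card_fin, nsmul_eq_mul]
    push_cast
    ring
  rw [h4] at h1
  linarith

end Pool.Agent.Helper5.ET.OV
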